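import Mathlib

/-!
# MP_0f9b8a: the `d`-th roots of a convolution recursion need not be eventually increasing

The rational function
`f(a,b) = D (1/2 + z a b) / (1 + 1000 z (a + b) D)`, `D = ((a + b)(a + b - 1))^2`, `z = ((a-2)(b-2))^2`,
is admissible, but for every `n_1 > 0` the sequence it generates satisfies
`n_{d+1}^{1/(d+1)} < n_d^{1/d}` for every odd `d`.
-/

open Finset Filter Topology

namespace Pool.Agent.Results.MP_0f9b8a_co.ParityCounterexample

/-- `f` is given on pairs of positive integers by a rational function with rational coefficients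
whose denominator has no zero on pairs of positive integers. -/
def IsRational (f : ℕ → ℕ → ℝ) : Prop :=
  ∃ P Q : MvPolynomial (Fin 2) ℚ, ∀ a b : ℕ, 0 < a → 0 < b →
    MvPolynomial.eval ![(a : ℚ), (b : ℚ)] Q ≠ 0 ∧
      f a b = ((MvPolynomial.eval ![(a : ℚ), (b : ℚ)] P /
        MvPolynomial.eval ![(a : ℚ), (b : ℚ)] Q : ℚ) : ℝ)

/-- Admissible functions: rational, positive, and comparable to `(a b / (a + b)) ^ k` for some real
`k > 0` as both arguments tend to infinity. -/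
structure Admissible (f : ℕ → ℕ → ℝ) : Prop where
  rational : IsRational f
  pos : ∀ a b : ℕ, 0 < a → 0 < b → 0 < f a b
  limit : ∃ k : ℝ, 0 < k ∧ ∃ L : ℝ, 0 < L ∧
    Tendsto (fun p : ℕ × ℕ => f p.1 p.2 / (((p.1 : ℝ) * p.2) / ((p.1 : ℝ) + p.2)) ^ k)
      (atTop ×ˢ atTop) (𝓝 L)

/-- The convolution recursion `n_d = ∑_{d_1 + d_2 = d} f(d_1, d_2) n_{d_1} n_{d_2}`, `d ≥ 2`. -/
def Recursion (f : ℕ → ℕ → ℝ) (n : ℕ → ℝ) : Prop :=
  ∀ d : ℕ, 2 ≤ d → n d = ∑ i ∈ Ico 1 d, f i (d - i) * n i * n (d - i)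

noncomputable def Dd (a b : ℝ) : ℝ := ((a + b) * (a + b - 1)) ^ 2

noncomputable def zz (a b : ℝ) : ℝ := ((a - 2) * (b - 2)) ^ 2

noncomputable def G (a b : ℝ) : ℝ :=
  Dd a b * (1 / 2 + zz a b * (a * b)) / (1 + 1000 * (zz a b * (a + b) * Dd a b))

/-- The counterexample. -/
noncomputable def F (a b : ℕ) : ℝ := G a b

lemma Dd_pos {a b : ℝ} (ha : 1 ≤ a) (hb : 1 ≤ b) : 0 < Dd a b := by
  unfold Dd
  have : 0 < (a + b) * (a + b - 1) := by
    apply mul_pos <;> linarith
  positivity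

lemma zz_nonneg (a b : ℝ) : 0 ≤ zz a b := by unfold zz; positivity

lemma G_pos {a b : ℝ} (ha : 1 ≤ a) (hb : 1 ≤ b) : 0 < G a b := by
  unfold G
  have h1 := Dd_pos ha hb
  have h2 := zz_nonneg a b
  have h3 : 0 ≤ a * b := by nlinarith
  have h4 : 0 ≤ zz a b * (a * b) := mul_nonneg h2 h3
  have h5 : 0 ≤ zz a b * (a + b) * Dd a b := mul_nonneg (mul_nonneg h2 (by linarith)) h1.le
  apply div_pos
  · apply mul_pos h1; linarith
  · linarith

lemma F_pos {a b : ℕ} (ha : 0 < a) (hb : 0 < b) : 0 < F a b :=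
  G_pos (by exact_mod_cast ha) (by exact_mod_cast hb)

lemma G_symm (a b : ℝ) : G a b = G b a := by
  unfold G Dd zz
  rw [add_comm b a, mul_comm b a, mul_comm (b - 2) (a - 2)]

lemma F_symm (a b : ℕ) : F a b = F b a := G_symm _ _

lemma G_two (b : ℝ) : G 2 b = ((b + 2) * (b + 1)) ^ 2 / 2 := by
  unfold G Dd zz
  have : (2 - 2 : ℝ) = 0 := by norm_num
  rw [this]
  ring

lemma one_le_sq {a : ℕ} (ha : a ≠ 2) : 1 ≤ ((a : ℝ) - 2) ^ 2 := by
  rcases Nat.lt_or_ge a 2 with h | h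
  · have : (a : ℝ) ≤ 1 := by exact_mod_cast Nat.lt_succ_iff.mp h
    nlinarith
  · have h3 : 3 ≤ a := by omega
    have : (3 : ℝ) ≤ a := by exact_mod_cast h3
    nlinarith

lemma one_le_zz {a b : ℕ} (ha : a ≠ 2) (hb : b ≠ 2) : 1 ≤ zz a b := by
  unfold zz
  rw [mul_pow]
  have h1 := one_le_sq ha
  have h2 := one_le_sq hb
  nlinarith

lemma F_le {a b : ℕ} (ha : 0 < a) (hb : 0 < b) (ha2 : a ≠ 2) (hb2 : b ≠ 2) :
    F a b ≤ ((a : ℝ) * b + 1 / 2) / (1000 * ((a : ℝ) + b)) := by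
  have ha1 : (1 : ℝ) ≤ a := by exact_mod_cast ha
  have hb1 : (1 : ℝ) ≤ b := by exact_mod_cast hb
  have hD := Dd_pos ha1 hb1
  have hz := one_le_zz ha2 hb2
  unfold F G
  set D := Dd (a : ℝ) b
  set z := zz (a : ℝ) b
  have hs : 0 < (a : ℝ) + b := by linarith
  have h5 : 0 ≤ z * ((a : ℝ) + b) * D := mul_nonneg (mul_nonneg (by linarith) hs.le) hD.le
  rw [div_le_div_iff₀ (by linarith) (by linarith)]
  have h6 : 0 ≤ (z - 1) * (((a : ℝ) + b) * D) := mul_nonneg (by linarith) (mul_pos hs hD).le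
  have h7 : 0 ≤ (a : ℝ) * b := by nlinarith
  nlinarith

/-- The value `β = F 1 1 = 6 / 8001`. -/
noncomputable def β : ℝ := 6 / 8001

lemma F11 : F 1 1 = β := by
  unfold F G Dd zz β
  norm_num

lemma F13 : F 1 3 = 504 / 576001 := by
  unfold F G Dd zz
  norm_num

lemma F12 : F 1 2 = 18 := by
  rw [F_symm]
  unfold F
  have := G_two 1
  push_cast
  rw [this]; norm_num

lemma F22 : F 2 2 = 72 := by
  unfold F
  have := G_two 2
  push_cast
  rw [this]; norm_num

lemma F2 (b : ℕ) : F 2 b = (((b : ℝ) + 2) * (b + 1)) ^ 2 / 2 := by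
  unfold F
  have := G_two b
  push_cast
  exact this

noncomputable def B (d : ℕ) : ℝ := (d.factorial : ℝ) ^ 2 * β ^ (d / 2)

lemma β_pos : 0 < β := by unfold β; norm_num

lemma β_le : β ≤ 1 := by unfold β; norm_num

lemma B_pos (d : ℕ) : 0 < B d := by
  unfold B
  have := β_pos
  have h2 : (0 : ℝ) < d.factorial := by exact_mod_cast Nat.factorial_pos d
  positivity

lemma B_mul (i j : ℕ) : B i * B j * ((i + j).choose i : ℝ) ^ 2 ≤ β⁻¹ * B (i + j) := by
  unfold B
  have h1 : (((i + j).choose i : ℕ) : ℝ) * i.factorial * j.factorial = ((i + j).factorial : ℕ) := by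
    have h := Nat.add_choose_mul_factorial_mul_factorial i j
    rw [← Nat.choose_symm_add] at h
    exact_mod_cast h
  have h2 : β ^ (i / 2 + j / 2 + 1) ≤ β ^ ((i + j) / 2) :=
    pow_le_pow_of_le_one β_pos.le β_le (by omega)
  have h3 : β ^ (i / 2) * β ^ (j / 2) = β⁻¹ * β ^ (i / 2 + j / 2 + 1) := by
    rw [pow_succ, pow_add]
    field_simp [β_pos.ne']
  have h4 : (0 : ℝ) ≤ ((i + j).factorial : ℝ) ^ 2 := by positivity
  have h5 : 0 ≤ β⁻¹ := (inv_pos.mpr β_pos).le
  calc (i.factorial : ℝ) ^ 2 * β ^ (i / 2) * ((j.factorial : ℝ) ^ 2 * β ^ (j / 2)) *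
        ((i + j).choose i : ℝ) ^ 2
      = ((((i + j).choose i : ℕ) : ℝ) * i.factorial * j.factorial) ^ 2 *
        (β ^ (i / 2) * β ^ (j / 2)) := by ring
    _ = ((i + j).factorial : ℝ) ^ 2 * (β⁻¹ * β ^ (i / 2 + j / 2 + 1)) := by rw [h1, h3]
    _ ≤ ((i + j).factorial : ℝ) ^ 2 * (β⁻¹ * β ^ ((i + j) / 2)) := by gcongr
    _ = β⁻¹ * (((i + j).factorial : ℝ) ^ 2 * β ^ ((i + j) / 2)) := by ring

lemma B_add_two (d : ℕ) : B (d + 2) = (((d : ℝ) + 2) * (d + 1)) ^ 2 * β * B d := by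
  unfold B
  have h1 : (d + 2) / 2 = d / 2 + 1 := by omega
  rw [h1, Nat.factorial_succ, Nat.factorial_succ, pow_succ]
  push_cast
  ring

lemma choose_mono_half {n r k : ℕ} (hrk : r ≤ k) (hk : k ≤ n / 2) : n.choose r ≤ n.choose k := by
  induction k, hrk using Nat.le_induction with
  | base => exact le_rfl
  | succ k hk' ih =>
    exact (ih (by omega)).trans (Nat.choose_le_succ_of_lt_half_left (by omega))

lemma choose_three_le {d i : ℕ} (h3 : 3 ≤ i) (hi : i + 3 ≤ d) : d.choose 3 ≤ d.choose i := by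
  by_cases h : i ≤ d / 2
  · exact choose_mono_half h3 h
  · rw [← Nat.choose_symm (show i ≤ d by omega)]
    exact choose_mono_half (by omega) (by omega)

lemma six_choose_three (d : ℕ) (hd : 2 ≤ d) :
    (6 : ℝ) * (d.choose 3 : ℝ) = (d : ℝ) * (d - 1) * (d - 2) := by
  have h := Nat.descFactorial_eq_factorial_mul_choose d 3
  obtain ⟨e, rfl⟩ : ∃ e, d = e + 2 := ⟨d - 2, by omega⟩
  have h2 : (e + 2).descFactorial 3 = e * ((e + 1) * (e + 2)) := by
    simp [Nat.descFactorial]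
  rw [h2] at h
  have h3 : ((e * ((e + 1) * (e + 2)) : ℕ) : ℝ) = ((Nat.factorial 3 * (e + 2).choose 3 : ℕ) : ℝ) := by
    rw [h]
  push_cast at h3
  have h4 : ((Nat.factorial 3 : ℕ) : ℝ) = 6 := by norm_num [Nat.factorial]
  rw [h4] at h3
  push_cast
  linarith

/-- The product of two normalising factors. -/
lemma B_mul_le {i j : ℕ} (hi : 3 ≤ i) (hj : 3 ≤ j) :
    B i * B j ≤ β⁻¹ * B (i + j) *
      (6 / (((i + j : ℕ) : ℝ) * (((i + j : ℕ) : ℝ) - 1) * (((i + j : ℕ) : ℝ) - 2))) ^ 2 := by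
  have h1 := B_mul i j
  have h2 : (i + j).choose 3 ≤ (i + j).choose i := choose_three_le hi (by omega)
  have h3 := six_choose_three (i + j) (by omega)
  have hd : (6 : ℝ) ≤ ((i + j : ℕ) : ℝ) := by exact_mod_cast (by omega : 6 ≤ i + j)
  set c3 : ℝ := (((i + j).choose 3 : ℕ) : ℝ) with hc3
  have hc : c3 ≤ (((i + j).choose i : ℕ) : ℝ) := by rw [hc3]; exact_mod_cast h2
  set x : ℝ := ((i + j : ℕ) : ℝ) with hx
  have hpos : 0 < x * (x - 1) * (x - 2) := by
    apply mul_pos (mul_pos _ _) <;> linarith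
  have hc3pos : 0 < c3 := by nlinarith
  have h4 : (6 : ℝ) / (x * (x - 1) * (x - 2)) = 1 / c3 := by
    rw [← h3]; field_simp
  rw [h4, one_div, inv_pow, ← div_eq_mul_inv, le_div_iff₀ (by positivity)]
  refine le_trans ?_ h1
  have hB := mul_pos (B_pos i) (B_pos j)
  have : c3 ^ 2 ≤ (((i + j).choose i : ℕ) : ℝ) ^ 2 := by gcongr
  gcongr

/-! ### The normalised sequence -/

section seq

variable {N : ℕ → ℝ} (h1 : N 1 = 1) (hrec : Recursion F N)

include h1 hrec

lemma N_pos : ∀ d : ℕ, 1 ≤ d → 0 < N d := by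
  intro d
  induction d using Nat.strong_induction_on with
  | _ d ih =>
    intro hd
    rcases Nat.lt_or_ge d 2 with h | h
    · have : d = 1 := by omega
      rw [this, h1]; norm_num
    · rw [hrec d h]
      apply Finset.sum_pos
      · intro i hi
        rw [mem_Ico] at hi
        exact mul_pos (mul_pos (F_pos (by omega) (by omega)) (ih i (by omega) (by omega)))
          (ih (d - i) (by omega) (by omega))
      · exact ⟨1, by rw [mem_Ico]; omega⟩

lemma N_two : N 2 = β := by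
  rw [hrec 2 le_rfl]
  have : Ico 1 2 = {1} := by rfl
  rw [this, sum_singleton]
  norm_num [h1, F11]

lemma N_three : N 3 = 36 * β := by
  rw [hrec 3 (by norm_num)]
  have : Ico 1 3 = {1, 2} := by rfl
  rw [this, sum_pair (by norm_num)]
  have h2 := N_two h1 hrec
  norm_num [h1, h2, F12, F_symm 2 1]
  ring

lemma N_four : N 4 = 2 * (504 / 576001) * (36 * β) + 72 * β ^ 2 := by
  rw [hrec 4 (by norm_num)]
  have : Ico 1 4 = {1, 2, 3} := by rfl
  rw [this, sum_insert (by decide), sum_pair (by norm_num)]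
  have h2 := N_two h1 hrec
  have h3 := N_three h1 hrec
  norm_num [h1, h2, h3, F13, F22, F_symm 3 1]
  ring

lemma N_expand (e : ℕ) : N (e + 5) = 2 * (F 1 (e + 4) * N (e + 4)) +
    (((e : ℝ) + 5) * (e + 4)) ^ 2 * β * N (e + 3) +
      ∑ i ∈ Ico 3 (e + 3), F i (e + 5 - i) * N i * N (e + 5 - i) := by
  rw [hrec (e + 5) (by omega)]
  rw [Finset.sum_eq_sum_Ico_succ_bot (by omega : 1 < e + 5)]
  rw [Finset.sum_eq_sum_Ico_succ_bot (by omega : 1 + 1 < e + 5)]
  rw [show e + 5 = (e + 3 + 1) + 1 from rfl, Finset.sum_Ico_succ_top (by omega),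
    Finset.sum_Ico_succ_top (by omega)]
  have e1 : e + 3 + 1 + 1 - 1 = e + 4 := by omega
  have e2 : e + 3 + 1 + 1 - (1 + 1) = e + 3 := by omega
  have e3 : e + 3 + 1 + 1 - (e + 3 + 1) = 1 := by omega
  have e4 : e + 3 + 1 + 1 - (e + 3) = 2 := by omega
  rw [e1, e2, e3, e4, h1, show (1 + 1 : ℕ) = 2 from rfl, N_two h1 hrec, F_symm (e + 3) 2,
    F_symm (e + 3 + 1) 1, F2]
  push_cast
  ring

lemma lower (m : ℕ) : B (2 * m + 1) ≤ N (2 * m + 1) := by
  induction m with
  | zero => rw [show 2 * 0 + 1 = 1 from rfl, h1]; unfold B; simp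
  | succ m ih =>
    rcases Nat.eq_zero_or_pos m with rfl | hm
    · rw [show 2 * (0 + 1) + 1 = 3 from rfl, N_three h1 hrec]
      unfold B
      norm_num [Nat.factorial]
    · obtain ⟨k, rfl⟩ : ∃ k, m = k + 1 := ⟨m - 1, by omega⟩
      have e1 : 2 * (k + 1 + 1) + 1 = 2 * k + 5 := by ring
      have e2 : 2 * (k + 1) + 1 = 2 * k + 3 := by ring
      rw [e2] at ih
      rw [e1, show 2 * k + 5 = (2 * k + 3) + 2 from rfl, B_add_two,
        show 2 * k + 3 + 2 = 2 * k + 5 from rfl, N_expand h1 hrec]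
      have p1 : 0 ≤ 2 * (F 1 (2 * k + 4) * N (2 * k + 4)) := by
        have a1 := F_pos (a := 1) (b := 2 * k + 4) (by norm_num) (by omega)
        have a2 := N_pos h1 hrec (2 * k + 4) (by omega)
        positivity
      have p2 : 0 ≤ ∑ i ∈ Ico 3 (2 * k + 3), F i (2 * k + 5 - i) * N i * N (2 * k + 5 - i) := by
        apply Finset.sum_nonneg
        intro i hi
        rw [mem_Ico] at hi
        have a1 := F_pos (a := i) (b := 2 * k + 5 - i) (by omega) (by omega)
        have a2 := N_pos h1 hrec i (by omega)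
        have a3 := N_pos h1 hrec (2 * k + 5 - i) (by omega)
        positivity
      have p3 : ((((2 * k + 3 : ℕ) : ℝ) + 2) * (((2 * k + 3 : ℕ) : ℝ) + 1)) ^ 2 * β *
          B (2 * k + 3) ≤
          ((((2 * k : ℕ) : ℝ) + 5) * (((2 * k : ℕ) : ℝ) + 4)) ^ 2 * β * N (2 * k + 3) := by
        have hb := β_pos
        push_cast
        have : ((2 * (k : ℝ) + 3 + 2) * (2 * (k : ℝ) + 3 + 1)) =
          ((2 * (k : ℝ) + 5) * (2 * (k : ℝ) + 4)) := by ring
        rw [this]
        gcongr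
      linarith

omit h1 hrec in
lemma final_ineq (e : ℝ) (he : 0 ≤ e) :
    4 * (e + 9 / 2) * (8001 / 6) / (1000 * (e + 5) ^ 3) + (2 - 3 / (e + 3)) +
      e * (4 * (((e + 5) ^ 2 / 4 + 1 / 2) / (1000 * (e + 5))) * (8001 / 6) *
        (6 / ((e + 5) * (e + 4) * (e + 3))) ^ 2) ≤ 2 - 3 / (e + 5) := by
  have h : 0 ≤ 6 * (e + 5) ^ 2 * (e + 4) ^ 2 * (e + 3) -
      (5334 / 1000 * (e + 9 / 2) * (e + 4) ^ 2 * (e + 3) ^ 2 +
        192024 / 1000 * e * ((e + 5) ^ 2 / 4 + 1 / 2)) := by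
    ring_nf
    positivity
  rw [← sub_nonneg]
  have h2 : 2 - 3 / (e + 5) - (4 * (e + 9 / 2) * (8001 / 6) / (1000 * (e + 5) ^ 3) +
      (2 - 3 / (e + 3)) +
      e * (4 * (((e + 5) ^ 2 / 4 + 1 / 2) / (1000 * (e + 5))) * (8001 / 6) *
        (6 / ((e + 5) * (e + 4) * (e + 3))) ^ 2)) =
      (6 * (e + 5) ^ 2 * (e + 4) ^ 2 * (e + 3) -
      (5334 / 1000 * (e + 9 / 2) * (e + 4) ^ 2 * (e + 3) ^ 2 +
        192024 / 1000 * e * ((e + 5) ^ 2 / 4 + 1 / 2))) /
        ((e + 5) ^ 3 * (e + 4) ^ 2 * (e + 3) ^ 2) := by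
    field_simp
    ring
  rw [h2]
  positivity

lemma upper : ∀ d : ℕ, 3 ≤ d → N d ≤ (2 - 3 / (d : ℝ)) * B d := by
  intro d
  induction d using Nat.strong_induction_on with
  | _ d ih =>
    intro hd
    rcases Nat.lt_or_ge d 5 with h | h
    · rcases (by omega : d = 3 ∨ d = 4) with rfl | rfl
      · rw [N_three h1 hrec]; unfold B; norm_num [Nat.factorial]
      · rw [N_four h1 hrec]; unfold B β; norm_num [Nat.factorial]
    · obtain ⟨e, rfl⟩ : ∃ e, d = e + 5 := ⟨d - 5, by omega⟩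
      have he : (0 : ℝ) ≤ e := Nat.cast_nonneg e
      have hβi : β⁻¹ = 8001 / 6 := by unfold β; norm_num
      have hb := β_pos
      have ih2 : ∀ j, 3 ≤ j → j < e + 5 → N j ≤ 2 * B j := by
        intro j hj hj2
        have := ih j hj2 hj
        have hBj := B_pos j
        have hj0 : (0 : ℝ) < j := by exact_mod_cast (by omega : 0 < j)
        have : (2 - 3 / (j : ℝ)) * B j ≤ 2 * B j := by
          have : 0 < 3 / (j : ℝ) := by positivity
          nlinarith
        linarith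
      rw [N_expand h1 hrec]
      -- first term
      have t1 : 2 * (F 1 (e + 4) * N (e + 4)) ≤
          4 * ((e : ℝ) + 9 / 2) * (8001 / 6) / (1000 * ((e : ℝ) + 5) ^ 3) * B (e + 5) := by
        have a1 := F_le (a := 1) (b := e + 4) (by norm_num) (by omega) (by norm_num) (by omega)
        have a2 := ih2 (e + 4) (by omega) (by omega)
        have a3 := B_mul 1 (e + 4)
        rw [show 1 + (e + 4) = e + 5 by ring, hβi] at a3
        have hB1 : B 1 = 1 := by unfold B; simp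
        rw [hB1, Nat.choose_one_right] at a3
        push_cast at a1 a3
        have a4 := F_pos (a := 1) (b := e + 4) (by norm_num) (by omega)
        have a5 := N_pos h1 hrec (e + 4) (by omega)
        have hB4 := B_pos (e + 4)
        calc 2 * (F 1 (e + 4) * N (e + 4))
            ≤ 2 * ((1 * ((e : ℝ) + 4) + 1 / 2) / (1000 * (1 + ((e : ℝ) + 4))) *
              (2 * B (e + 4))) := by
              gcongr
          _ = 4 * ((e : ℝ) + 9 / 2) / (1000 * ((e : ℝ) + 5) ^ 3) *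
              (1 * B (e + 4) * ((e : ℝ) + 5) ^ 2) := by
              field_simp
              ring
          _ ≤ 4 * ((e : ℝ) + 9 / 2) / (1000 * ((e : ℝ) + 5) ^ 3) *
              (8001 / 6 * B (e + 5)) := by
              gcongr
          _ = _ := by ring
      have t2 : (((e : ℝ) + 5) * (e + 4)) ^ 2 * β * N (e + 3) ≤
          (2 - 3 / ((e : ℝ) + 3)) * B (e + 5) := by
        have a1 := ih (e + 3) (by omega) (by omega)
        have a2 := B_add_two (e + 3)
        rw [show e + 3 + 2 = e + 5 from rfl] at a2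
        push_cast at a1 a2
        rw [a2]
        calc (((e : ℝ) + 5) * (e + 4)) ^ 2 * β * N (e + 3)
            ≤ (((e : ℝ) + 5) * (e + 4)) ^ 2 * β * ((2 - 3 / ((e : ℝ) + 3)) * B (e + 3)) := by
              gcongr
          _ = _ := by ring
      have t3 : ∑ i ∈ Ico 3 (e + 3), F i (e + 5 - i) * N i * N (e + 5 - i) ≤
          (e : ℝ) * (4 * ((((e : ℝ) + 5) ^ 2 / 4 + 1 / 2) / (1000 * ((e : ℝ) + 5))) *
            (8001 / 6) * (6 / (((e : ℝ) + 5) * (e + 4) * (e + 3))) ^ 2) * B (e + 5) := by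
        have hcard : ((Ico 3 (e + 3)).card : ℝ) = e := by simp
        have : ∀ i ∈ Ico 3 (e + 3), F i (e + 5 - i) * N i * N (e + 5 - i) ≤
            (4 * ((((e : ℝ) + 5) ^ 2 / 4 + 1 / 2) / (1000 * ((e : ℝ) + 5))) *
            (8001 / 6) * (6 / (((e : ℝ) + 5) * (e + 4) * (e + 3))) ^ 2) * B (e + 5) := by
          intro i hi
          rw [mem_Ico] at hi
          obtain ⟨j, hj⟩ : ∃ j, e + 5 = i + j := ⟨e + 5 - i, by omega⟩
          have hj' : e + 5 - i = j := by omega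
          rw [hj']
          have a1 := F_le (a := i) (b := j) (by omega) (by omega) (by omega) (by omega)
          have a2 := ih2 i (by omega) (by omega)
          have a3 := ih2 j (by omega) (by omega)
          have a4 := F_pos (a := i) (b := j) (by omega) (by omega)
          have a5 := N_pos h1 hrec i (by omega)
          have a6 := N_pos h1 hrec j (by omega)
          have a7 := B_mul_le (i := i) (j := j) (by omega) (by omega)
          rw [← hj, hβi] at a7
          push_cast at a7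
          have hij : (i : ℝ) + j = (e : ℝ) + 5 := by exact_mod_cast hj.symm
          have hprod : (i : ℝ) * j ≤ ((e : ℝ) + 5) ^ 2 / 4 := by
            rw [← hij]; nlinarith [sq_nonneg ((i : ℝ) - j)]
          rw [hij] at a1
          have hBi := B_pos i
          have hBj := B_pos j
          have hx : ((e : ℝ) + 5 - 1) = e + 4 := by ring
          have hy : ((e : ℝ) + 5 - 2) = e + 3 := by ring
          rw [hx, hy] at a7
          calc F i j * N i * N j
              ≤ ((((e : ℝ) + 5) ^ 2 / 4 + 1 / 2) / (1000 * ((e : ℝ) + 5))) * (2 * B i) *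
                (2 * B j) := by
                have : F i j ≤ (((e : ℝ) + 5) ^ 2 / 4 + 1 / 2) / (1000 * ((e : ℝ) + 5)) := by
                  refine le_trans a1 ?_
                  gcongr
                gcongr
            _ = 4 * ((((e : ℝ) + 5) ^ 2 / 4 + 1 / 2) / (1000 * ((e : ℝ) + 5))) *
                (B i * B j) := by ring
            _ ≤ 4 * ((((e : ℝ) + 5) ^ 2 / 4 + 1 / 2) / (1000 * ((e : ℝ) + 5))) *
                (8001 / 6 * B (e + 5) * (6 / (((e : ℝ) + 5) * (e + 4) * (e + 3))) ^ 2) := by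
                gcongr
            _ = _ := by ring
        refine le_trans (Finset.sum_le_card_nsmul _ _ _ this) ?_
        rw [nsmul_eq_mul, hcard]
        exact le_of_eq (by ring)
      have hB := B_pos (e + 5)
      have hf := mul_le_mul_of_nonneg_right (final_ineq (e : ℝ) he) hB.le
      push_cast
      linarith

lemma upper' (m : ℕ) : N (2 * m + 2) ≤ 2 * B (2 * m + 2) := by
  rcases Nat.eq_zero_or_pos m with rfl | hm
  · rw [show 2 * 0 + 2 = 2 from rfl, N_two h1 hrec]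
    unfold B β
    norm_num [Nat.factorial]
  · have := upper h1 hrec (2 * m + 2) (by omega)
    have hB := B_pos (2 * m + 2)
    have h3 : (0 : ℝ) < ((2 * m + 2 : ℕ) : ℝ) := by exact_mod_cast (by omega : 0 < 2 * m + 2)
    have : (2 - 3 / ((2 * m + 2 : ℕ) : ℝ)) * B (2 * m + 2) ≤ 2 * B (2 * m + 2) := by
      have : 0 < 3 / ((2 * m + 2 : ℕ) : ℝ) := by positivity
      nlinarith
    linarith

lemma pow_lt (m : ℕ) : N (2 * m + 2) ^ (2 * m + 1) < N (2 * m + 1) ^ (2 * m + 1 + 1) := by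
  have hb := β_pos
  have u := upper' h1 hrec m
  have l := lower h1 hrec m
  have p2 := N_pos h1 hrec (2 * m + 2) (by omega)
  have hB1 := B_pos (2 * m + 1)
  have hB2 := B_pos (2 * m + 2)
  have hf : (0 : ℝ) < ((2 * m + 1).factorial : ℝ) := by exact_mod_cast Nat.factorial_pos _
  -- the numerical core
  have core : (2 : ℝ) ^ (2 * m + 1) * (((2 * m + 2 : ℕ) : ℝ) ^ (2 * m + 1)) ^ 2 * β ^ (m + 1) <
      ((2 * m + 1).factorial : ℝ) ^ 2 := by
    have e1 : ((2 * m + 2 : ℕ) : ℝ) ^ (2 * m + 1) ≤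
        ((2 * m + 1).factorial : ℝ) * Real.exp ((2 * m + 2 : ℕ) : ℝ) := by
      have := Real.pow_div_factorial_le_exp (x := ((2 * m + 2 : ℕ) : ℝ)) (by positivity) (2 * m + 1)
      rw [div_le_iff₀ hf] at this
      linarith
    have e2 : Real.exp ((2 * m + 2 : ℕ) : ℝ) ^ 2 ≤ (55 : ℝ) ^ (m + 1) := by
      have : Real.exp ((2 * m + 2 : ℕ) : ℝ) ^ 2 = (Real.exp 1 ^ 4) ^ (m + 1) := by
        rw [← Real.exp_nat_mul, ← Real.exp_nat_mul, ← Real.exp_nat_mul]
        congr 1
        push_cast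
        ring
      rw [this]
      have h3 : Real.exp 1 ^ 4 ≤ 55 := by
        have := Real.exp_one_lt_d9
        calc Real.exp 1 ^ 4 ≤ 2.7182818286 ^ 4 := by gcongr
          _ ≤ 55 := by norm_num
      gcongr
    have e3 : (2 : ℝ) ^ (2 * m + 1) ≤ 4 ^ (m + 1) := by
      have : (4 : ℝ) ^ (m + 1) = 2 ^ (2 * m + 2) := by
        rw [show (4 : ℝ) = 2 ^ 2 by norm_num, ← pow_mul]
        congr 1
      rw [this]
      exact pow_le_pow_right₀ (by norm_num) (by omega)
    calc (2 : ℝ) ^ (2 * m + 1) * (((2 * m + 2 : ℕ) : ℝ) ^ (2 * m + 1)) ^ 2 * β ^ (m + 1)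
        ≤ 4 ^ (m + 1) * (((2 * m + 1).factorial : ℝ) * Real.exp ((2 * m + 2 : ℕ) : ℝ)) ^ 2 *
          β ^ (m + 1) := by
          gcongr
      _ = ((2 * m + 1).factorial : ℝ) ^ 2 *
          (4 ^ (m + 1) * (Real.exp ((2 * m + 2 : ℕ) : ℝ)) ^ 2 * β ^ (m + 1)) := by ring
      _ ≤ ((2 * m + 1).factorial : ℝ) ^ 2 * (4 ^ (m + 1) * (55 : ℝ) ^ (m + 1) * β ^ (m + 1)) := by
          gcongr
      _ = ((2 * m + 1).factorial : ℝ) ^ 2 * (4 * 55 * β) ^ (m + 1) := by
          rw [mul_pow, mul_pow]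
      _ < ((2 * m + 1).factorial : ℝ) ^ 2 * 1 := by
          have : (4 * 55 * β) ^ (m + 1) < 1 := by
            apply pow_lt_one₀ (by positivity) _ (by omega)
            unfold β; norm_num
          gcongr
      _ = _ := mul_one _
  calc N (2 * m + 2) ^ (2 * m + 1) ≤ (2 * B (2 * m + 2)) ^ (2 * m + 1) := by gcongr
    _ = (((2 * m + 1).factorial : ℝ) ^ 2 * β ^ m) ^ (2 * m + 1) * β ^ m *
        ((2 : ℝ) ^ (2 * m + 1) * (((2 * m + 2 : ℕ) : ℝ) ^ (2 * m + 1)) ^ 2 * β ^ (m + 1)) := by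
        have hβ : (β ^ (m + 1)) ^ (2 * m + 1) = (β ^ m) ^ (2 * m + 1) * β ^ m * β ^ (m + 1) := by
          rw [← pow_mul, ← pow_mul, ← pow_add, ← pow_add]
          congr 1
          ring
        have hBe : B (2 * m + 2) =
            (((2 * m + 2 : ℕ) : ℝ) * ((2 * m + 1).factorial : ℝ)) ^ 2 * β ^ (m + 1) := by
          unfold B
          rw [show (2 * m + 2) / 2 = m + 1 by omega, Nat.factorial_succ (2 * m + 1)]
          push_cast
          ring
        rw [hBe]
        generalize ((2 * m + 2 : ℕ) : ℝ) = w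
        generalize ((2 * m + 1).factorial : ℝ) = f
        rw [mul_pow 2, mul_pow ((w * f) ^ 2), hβ, mul_pow w f 2, mul_pow (w ^ 2) (f ^ 2),
          mul_pow (f ^ 2) (β ^ m)]
        generalize β ^ m = u
        generalize β ^ (m + 1) = v
        ring
    _ < (((2 * m + 1).factorial : ℝ) ^ 2 * β ^ m) ^ (2 * m + 1) * β ^ m *
        ((2 * m + 1).factorial : ℝ) ^ 2 := by
        gcongr
    _ = B (2 * m + 1) ^ (2 * m + 1 + 1) := by
        unfold B
        rw [show (2 * m + 1) / 2 = m by omega]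
        ring
    _ ≤ N (2 * m + 1) ^ (2 * m + 1 + 1) := by gcongr

end seq

lemma root_lt {x y : ℝ} (hx : 0 < x) (hy : 0 < y) {n : ℕ} (hn : 0 < n)
    (h : x ^ n < y ^ (n + 1)) : x ^ (1 / ((n : ℝ) + 1)) < y ^ (1 / (n : ℝ)) := by
  have hn' : (0 : ℝ) < n := by exact_mod_cast hn
  have e1 : x ^ (1 / ((n : ℝ) + 1)) = (x ^ n) ^ (1 / ((n : ℝ) * (n + 1))) := by
    rw [← Real.rpow_natCast, ← Real.rpow_mul hx.le]
    congr 1
    field_simp
  have e2 : y ^ (1 / (n : ℝ)) = (y ^ (n + 1)) ^ (1 / ((n : ℝ) * (n + 1))) := by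
    rw [← Real.rpow_natCast, ← Real.rpow_mul hy.le]
    congr 1
    push_cast
    field_simp
  rw [e1, e2]
  exact Real.rpow_lt_rpow (by positivity) h (by positivity)

lemma general {n : ℕ → ℝ} (h0 : 0 < n 1) (hrec : Recursion F n) (d : ℕ) (hd : Odd d) :
    (n (d + 1)) ^ (1 / ((d : ℝ) + 1)) < (n d) ^ (1 / (d : ℝ)) := by
  obtain ⟨m, rfl⟩ := hd
  set c := n 1 with hc
  set N : ℕ → ℝ := fun j => n j / c ^ j with hN
  have hN1 : N 1 = 1 := by
    simp only [hN, pow_one]
    exact div_self h0.ne'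
  have hNrec : Recursion F N := by
    intro j hj
    simp only [hN]
    rw [hrec j hj, Finset.sum_div]
    apply Finset.sum_congr rfl
    intro i hi
    rw [mem_Ico] at hi
    have : c ^ j = c ^ i * c ^ (j - i) := by rw [← pow_add]; congr 1; omega
    rw [this]
    field_simp
  have hP1 := N_pos hN1 hNrec (2 * m + 1) (by omega)
  have hP2 := N_pos hN1 hNrec (2 * m + 2) (by omega)
  have key := root_lt hP2 hP1 (by omega : 0 < 2 * m + 1) (pow_lt hN1 hNrec m)
  have e1 : n (2 * m + 1) = c ^ (2 * m + 1) * N (2 * m + 1) := by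
    simp only [hN]; field_simp
  have e2 : n (2 * m + 2) = c ^ (2 * m + 2) * N (2 * m + 2) := by
    simp only [hN]; field_simp
  have r1 : (c ^ (2 * m + 1)) ^ (1 / ((2 * m + 1 : ℕ) : ℝ)) = c := by
    rw [one_div]
    exact Real.pow_rpow_inv_natCast h0.le (by omega)
  have r2 : (c ^ (2 * m + 2)) ^ (1 / (((2 * m + 1 : ℕ) : ℝ) + 1)) = c := by
    have : (((2 * m + 1 : ℕ) : ℝ) + 1) = ((2 * m + 2 : ℕ) : ℝ) := by push_cast; ring
    rw [this, one_div]
    exact Real.pow_rpow_inv_natCast h0.le (by omega)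
  rw [show 2 * m + 1 + 1 = 2 * m + 2 from rfl, e1, e2, Real.mul_rpow (by positivity) hP2.le,
    Real.mul_rpow (by positivity) hP1.le, r1, r2]
  gcongr

/-- The sequence generated by `f` from the value `c` at `1`. -/
noncomputable def seq (f : ℕ → ℕ → ℝ) (c : ℝ) : ℕ → ℝ
  | 0 => 0
  | 1 => c
  | (d + 2) => ∑ i : Fin (d + 1),
      f (i.1 + 1) (d + 1 - i.1) * seq f c (i.1 + 1) * seq f c (d + 1 - i.1)
termination_by d => d
decreasing_by
  · have := i.2; omega
  · omega

lemma seq_rec (f : ℕ → ℕ → ℝ) (c : ℝ) : Recursion f (seq f c) := by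
  intro d hd
  obtain ⟨e, rfl⟩ : ∃ e, d = e + 2 := ⟨d - 2, by omega⟩
  rw [seq, Finset.sum_Ico_eq_sum_range, Finset.sum_range]
  apply Finset.sum_congr
  · rfl
  · intro i _
    have h1 : 1 + i.1 = i.1 + 1 := by ring
    have h2 : e + 2 - (1 + i.1) = e + 1 - i.1 := by omega
    rw [h2, h1]

lemma F_rational : IsRational F := by
  classical
  let x : MvPolynomial (Fin 2) ℚ := MvPolynomial.X 0
  let y : MvPolynomial (Fin 2) ℚ := MvPolynomial.X 1
  let D : MvPolynomial (Fin 2) ℚ := ((x + y) * (x + y - 1)) ^ 2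
  let z : MvPolynomial (Fin 2) ℚ := ((x - 2) * (y - 2)) ^ 2
  refine ⟨D * (MvPolynomial.C (1 / 2) + z * (x * y)), 1 + 1000 * (z * (x + y) * D), ?_⟩
  intro a b ha hb
  have eQ : MvPolynomial.eval ![(a : ℚ), (b : ℚ)] (1 + 1000 * (z * (x + y) * D)) =
      1 + 1000 * ((((a : ℚ) - 2) * (b - 2)) ^ 2 * (a + b) * (((a : ℚ) + b) * (a + b - 1)) ^ 2) := by
    simp [x, y, D, z]
  have eP : MvPolynomial.eval ![(a : ℚ), (b : ℚ)] (D * (MvPolynomial.C (1 / 2) + z * (x * y))) =
      (((a : ℚ) + b) * (a + b - 1)) ^ 2 * (1 / 2 + (((a : ℚ) - 2) * (b - 2)) ^ 2 * (a * b)) := by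
    simp [x, y, D, z]
  rw [eQ, eP]
  constructor
  · positivity
  · unfold F G Dd zz
    push_cast
    rfl

lemma F_limit : Tendsto (fun p : ℕ × ℕ => F p.1 p.2 / (((p.1 : ℝ) * p.2) / ((p.1 : ℝ) + p.2)) ^
    (1 : ℝ)) (atTop ×ˢ atTop) (𝓝 (1 / 1000)) := by
  have h1 : Tendsto (fun p : ℕ × ℕ => 1 / (p.1 : ℝ)) (atTop ×ˢ atTop) (𝓝 0) :=
    tendsto_one_div_atTop_nhds_zero_nat.comp tendsto_fst
  have hlo : Tendsto (fun p : ℕ × ℕ => (1 : ℝ) / 1000 - 1 / (p.1 : ℝ)) (atTop ×ˢ atTop)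
      (𝓝 (1 / 1000)) := by
    simpa using (tendsto_const_nhds (x := (1 : ℝ) / 1000)).sub h1
  have hhi : Tendsto (fun p : ℕ × ℕ => (1 : ℝ) / 1000 + 1 / (p.1 : ℝ)) (atTop ×ˢ atTop)
      (𝓝 (1 / 1000)) := by
    simpa using (tendsto_const_nhds (x := (1 : ℝ) / 1000)).add h1
  have hev : ∀ᶠ p : ℕ × ℕ in atTop ×ˢ atTop, 3 ≤ p.1 ∧ 3 ≤ p.2 :=
    (eventually_ge_atTop 3).prod_mk (eventually_ge_atTop 3)
  apply tendsto_of_tendsto_of_tendsto_of_le_of_le' hlo hhi
  · filter_upwards [hev] with p hp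
    have ha : (3 : ℝ) ≤ p.1 := by exact_mod_cast hp.1
    have hb : (3 : ℝ) ≤ p.2 := by exact_mod_cast hp.2
    have hD := Dd_pos (a := (p.1 : ℝ)) (b := (p.2 : ℝ)) (by linarith) (by linarith)
    have hz := one_le_zz (a := p.1) (b := p.2) (by omega) (by omega)
    have hD1 : 1 ≤ Dd (p.1 : ℝ) p.2 := by
      unfold Dd
      have : 1 ≤ ((p.1 : ℝ) + p.2) * ((p.1 : ℝ) + p.2 - 1) := by nlinarith
      nlinarith
    rw [Real.rpow_one]
    unfold F G
    set D := Dd (p.1 : ℝ) p.2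
    set z := zz (p.1 : ℝ) p.2
    set a := (p.1 : ℝ)
    set b := (p.2 : ℝ)
    set t := z * (a + b) * D with ht
    have hta : a ≤ t := by
      have h5 : a + b ≤ z * (a + b) := by nlinarith
      have h6 : z * (a + b) ≤ z * (a + b) * D := by nlinarith
      rw [ht]
      linarith
    have e1 : D * (1 / 2 + z * (a * b)) / (1 + 1000 * t) / (a * b / (a + b)) =
        (t + D * (a + b) / (2 * (a * b))) / (1 + 1000 * t) := by
      rw [ht]; field_simp; ring
    rw [e1]
    have h7 : 0 ≤ D * (a + b) / (2 * (a * b)) := by positivity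
    have htp : 0 < t := by linarith
    have h8 : t / (1 + 1000 * t) ≤ (t + D * (a + b) / (2 * (a * b))) / (1 + 1000 * t) := by
      gcongr
      linarith
    refine le_trans ?_ h8
    have h9 : 1 / 1000 - 1 / t ≤ t / (1 + 1000 * t) := by
      rw [div_sub_div _ _ (by norm_num) (by linarith), div_le_div_iff₀ (by positivity)
        (by positivity)]
      nlinarith
    have h10 : 1 / t ≤ 1 / a := by
      apply one_div_le_one_div_of_le <;> linarith
    linarith
  · filter_upwards [hev] with p hp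
    have ha : (3 : ℝ) ≤ p.1 := by exact_mod_cast hp.1
    have hb : (3 : ℝ) ≤ p.2 := by exact_mod_cast hp.2
    have hD := Dd_pos (a := (p.1 : ℝ)) (b := (p.2 : ℝ)) (by linarith) (by linarith)
    have hF := F_le (a := p.1) (b := p.2) (by omega) (by omega) (by omega) (by omega)
    rw [Real.rpow_one]
    set a := (p.1 : ℝ)
    set b := (p.2 : ℝ)
    have hab : 0 < a * b / (a + b) := by positivity
    rw [div_le_iff₀ hab]
    refine le_trans hF ?_
    rw [div_add_div _ _ (by norm_num) (by positivity), div_mul_div_comm,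
      div_le_div_iff₀ (by positivity) (by positivity)]
    have h3 : 0 ≤ (a + b) * (b - 1) * a := by
      apply mul_nonneg (mul_nonneg _ _) <;> linarith
    have h4 : 0 ≤ (a + b) * (b - 1) := by
      apply mul_nonneg <;> linarith
    nlinarith

/-- **The `d`-th roots of a convolution recursion need not be eventually increasing.** There is an
admissible (symmetric) rational function `f` such that for every starting value `n_1 > 0` the
sequence generated by `f` has `n_{d+1}^{1/(d+1)} < n_d^{1/d}` for every odd `d`. -/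
theorem result : ∃ f : ℕ → ℕ → ℝ, Admissible f ∧ (∀ a b, f a b = f b a) ∧
    (∀ c : ℝ, 0 < c → ∃ n : ℕ → ℝ, n 1 = c ∧ Recursion f n) ∧
    ∀ n : ℕ → ℝ, 0 < n 1 → Recursion f n → ∀ d : ℕ, Odd d →
      (n (d + 1)) ^ (1 / ((d : ℝ) + 1)) < (n d) ^ (1 / (d : ℝ)) :=
  ⟨F, ⟨F_rational, fun _ _ => F_pos, 1, one_pos, 1 / 1000, by norm_num, F_limit⟩, F_symm,
    fun c _ => ⟨seq F c, by rw [seq], seq_rec F c⟩, fun _ h0 hrec d hd => general h0 hrec d hd⟩

end Pool.Agent.Results.MP_0f9b8a_co.ParityCounterexample
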